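import Pool.Agent.X137.MW.Key

set_option autoImplicit false

/-!
# Support function in a direction orthogonal to `H`
-/

namespace Pool.Agent.X137.MW

open MeasureTheory Set Filter Topology

variable {n : ℕ} {w u : Eu n} {H : Submodule ℝ (Eu n)} {b : Prop}

lemma Cls.translate {K : Set (Eu n)} (hK : Cls b K) (y : Eu n) : Cls b ((fun x => x + y) '' K) := by
  refine ⟨hK.compact.image (by fun_prop), ?_, hK.ne.image _, fun hb => ?_⟩
  · rintro _ ⟨x, hx, rfl⟩ _ ⟨z, hz, rfl⟩ a c ha hc hac
    refine ⟨a • x + c • z, hK.convex hx hz ha hc hac, ?_⟩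
    have : y = (a + c) • y := by rw [hac, one_smul]
    conv_lhs => rw [this]
    module
  · have hi := hK.2.2.2 hb
    have hop : IsOpenMap (fun x : Eu n => x + y) := (Homeomorph.addRight y).isOpenMap
    have h1 := hop _ (isOpen_interior (s := K))
    exact (hi.image _).mono (interior_maximal (image_mono interior_subset) h1)

lemma psi_refl (hw : w ∈ H) (hu : u ∈ Hᗮ) (v : Eu n) : psi w u (H.reflection v) = psi w u v := by
  unfold psi
  rw [inner_w_refl hw, inner_u_refl hu, norm_sub_Q_refl hw hu, abs_neg]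

/-- the cone -/
def SS (w u : Eu n) : Set (Eu n) := {v | 0 < psi w u v}

lemma SS_open : IsOpen (SS w u) := isOpen_lt continuous_const psi_continuous

lemma ind_integrable (h : ON w u) {f : Eu n → ℝ} (hf : Continuous f) {c : ℝ} (hc : 0 ≤ c)
    (hb : ∀ v, |f v| ≤ c * ‖v‖) :
    Integrable ((SS w u).indicator (fun v => f v * Real.exp (-‖Q w u v‖ ^ 2))) := by
  refine ((gauss_int' (n := n) (a := 1 / 2) (by norm_num)).const_mul c).mono' ?_ ?_
  · apply AEStronglyMeasurable.indicator _ SS_open.measurableSet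
    apply Continuous.aestronglyMeasurable
    fun_prop
  · refine Filter.Eventually.of_forall fun v => ?_
    by_cases hv : v ∈ SS w u
    · rw [indicator_of_mem hv, Real.norm_eq_abs, abs_mul, abs_of_pos (Real.exp_pos _)]
      have h1 := norm_le_of_psi_pos h v hv
      calc |f v| * Real.exp (-‖Q w u v‖ ^ 2) ≤ (c * ‖v‖) * Real.exp (-(1 / 2 * ‖v‖ ^ 2)) := by
            apply mul_le_mul (hb v) _ (Real.exp_pos _).le (by positivity)
            apply Real.exp_le_exp.2
            linarith
        _ = _ := by ring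
    · rw [indicator_of_notMem hv, norm_zero]
      positivity

lemma abs_u_le (h : ON w u) (v : Eu n) : |inner ℝ u v| ≤ 1 * ‖v‖ := by
  rw [one_mul]; exact (abs_r_le h v).trans (Q_le h v)

lemma abs_w_le (h : ON w u) (v : Eu n) : |inner ℝ w v| ≤ 1 * ‖v‖ := by
  rw [one_mul]; exact (abs_s_le h v).trans (Q_le h v)

lemma J1_pos (h : ON w u) :
    0 < ∫ v, (SS w u).indicator (fun v => |inner ℝ u v| * Real.exp (-‖Q w u v‖ ^ 2)) v := by
  have hi := ind_integrable h (f := fun v => |inner ℝ u v|) (by fun_prop) zero_le_one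
    (fun v => by rw [abs_abs]; exact abs_u_le h v)
  rw [integral_pos_iff_support_of_nonneg _ hi]
  · have hop : IsOpen (SS w u ∩ {v : Eu n | 0 < inner ℝ u v}) :=
      SS_open.inter (isOpen_lt continuous_const (by fun_prop))
    have hne : (SS w u ∩ {v : Eu n | 0 < inner ℝ u v}).Nonempty := by
      refine ⟨(2:ℝ) • w + u, ?_, ?_⟩
      · show 0 < psi w u _
        have e1 : inner ℝ w ((2:ℝ) • w + u) = 2 := by
          rw [inner_add_right, real_inner_smul_right, h.ww, h.wu]; ring
        have e2 : inner ℝ u ((2:ℝ) • w + u) = 1 := by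
          rw [inner_add_right, real_inner_smul_right, h.uu, h.uw]; ring
        unfold psi
        rw [Q_apply, e1, e2, one_smul, sub_self, norm_zero]
        norm_num
      · show 0 < inner ℝ u _
        rw [inner_add_right, real_inner_smul_right, h.uu, h.uw]; norm_num
    refine lt_of_lt_of_le (hop.measure_pos volume hne) (measure_mono ?_)
    rintro v ⟨hv1, hv2⟩
    rw [Function.mem_support, indicator_of_mem hv1]
    have hv3 : 0 < inner ℝ u v := hv2
    have : 0 < |inner ℝ u v| * Real.exp (-‖Q w u v‖ ^ 2) :=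
      mul_pos (abs_pos.2 hv3.ne') (Real.exp_pos _)
    exact this.ne'
  · intro v
    apply indicator_nonneg
    intro v _
    positivity

lemma J3_zero (hw : w ∈ H) (hu : u ∈ Hᗮ) :
    ∫ v, (SS w u).indicator (fun v => inner ℝ u v * Real.exp (-‖Q w u v‖ ^ 2)) v = 0 := by
  set f : Eu n → ℝ := (SS w u).indicator (fun v => inner ℝ u v * Real.exp (-‖Q w u v‖ ^ 2)) with hf
  have h1 : ∫ v, f (H.reflection v) = ∫ v, f v :=
    (H.reflection.measurePreserving).integral_comp
      H.reflection.toHomeomorph.measurableEmbedding f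
  have h2 : ∀ v, f (H.reflection v) = - f v := by
    intro v
    have hmem : H.reflection v ∈ SS w u ↔ v ∈ SS w u := by
      show 0 < psi w u _ ↔ 0 < psi w u v
      rw [psi_refl hw hu]
    by_cases hv : v ∈ SS w u
    · rw [hf, indicator_of_mem hv, indicator_of_mem (hmem.2 hv), inner_u_refl hu, Q_refl hw hu,
        LinearIsometryEquiv.norm_map]
      ring
    · rw [hf, indicator_of_notMem hv, indicator_of_notMem (fun h' => hv (hmem.1 h')), neg_zero]
  simp only [h2, integral_neg] at h1
  linarith

/-- `supp X (r u)` for a symmetric set -/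
lemma supp_smul_sym {X : Set (Eu n)} (hX : IsCompact X) (hne : X.Nonempty) (hs : Sym H X)
    (hu : u ∈ Hᗮ) (r : ℝ) : supp X (r • u) = |r| * supp X u := by
  rcases le_total 0 r with hr | hr
  · rw [supp_smul hX hne hr, abs_of_nonneg hr]
  · have e : r • u = (-r) • (H.reflection u) := by rw [refl_u hu]; simp
    rw [e, supp_smul hX hne (by linarith), supp_refl hs, abs_of_nonpos hr]

lemma keyB (h : ON w u) (hw : w ∈ H) (hu : u ∈ Hᗮ) : ∃ C : ℝ, 0 ≤ C ∧
    ∀ (b : Prop) (D : Set (Eu n) → Set (Eu n)), Good H b D →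
      ∀ (K : Set (Eu n)) (y : Eu n) (p ε : ℝ), Cls b K → Sym H K → y ∈ Hᗮ →
      (∀ k ∈ K, inner ℝ w k ≤ p + ε) →
      (∀ x ∈ D ((fun x => x + y) '' K), p - ε ≤ inner ℝ w x) →
      supp (D ((fun x => x + y) '' K)) u ≤ supp K u + C * ε := by
  set J1 := ∫ v, (SS w u).indicator (fun v => |inner ℝ u v| * Real.exp (-‖Q w u v‖ ^ 2)) v with hJ1
  set J2 := ∫ v, (SS w u).indicator (fun v => inner ℝ w v * Real.exp (-‖Q w u v‖ ^ 2)) v with hJ2
  have hJ1p : 0 < J1 := J1_pos h
  have hJ2n : 0 ≤ J2 := by
    apply integral_nonneg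
    intro v
    apply indicator_nonneg
    intro v hv
    have hv' : 0 < psi w u v := hv
    unfold psi at hv'
    have := abs_nonneg (inner ℝ u v)
    have := norm_nonneg (v - Q w u v)
    have : 0 ≤ inner ℝ w v := by linarith
    positivity
  refine ⟨2 * J2 / J1, by positivity, ?_⟩
  intro b D hD K y p ε hK hKs hy hKw hXw
  set A := (fun x => x + y) '' K with hAdef
  have hA : Cls b A := hK.translate y
  set X := D A with hXdef
  have hX : Cls b X := hD.cls A hA
  have hXs : Sym H X := hD.sym A hA
  have hlim := limit_ineq h hX hA (fun N hN =>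
    basic_ineq hD hA (TT_cls h hN b) (TT_sym hw hu N))
  set d := supp X u - supp K u with hd
  set β := inner ℝ y u with hβ
  have hyw : inner ℝ y w = 0 := by
    rw [real_inner_comm]
    exact (Submodule.mem_orthogonal H y).1 hy w hw
  -- pointwise lower bound
  have hpt : ∀ v ∈ SS w u, |inner ℝ u v| * d - 2 * ε * inner ℝ w v - inner ℝ u v * β ≤
      supp X (Q w u v) - supp A (Q w u v) := by
    intro v hv
    have hv' : 0 < psi w u v := hv
    have hs : 0 ≤ inner ℝ w v := by
      unfold psi at hv'
      have := abs_nonneg (inner ℝ u v)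
      have := norm_nonneg (v - Q w u v)
      linarith
    have h1 : inner ℝ w v * (p - ε) + |inner ℝ u v| * supp X u ≤ supp X (Q w u v) := by
      obtain ⟨x, hx, hxe⟩ := supp_attained hX.compact hX.ne ((inner ℝ u v) • u)
      rw [supp_smul_sym hX.compact hX.ne hXs hu] at hxe
      have h2 := le_supp hX.compact hx (Q w u v)
      rw [Q_apply, inner_add_right, hxe, real_inner_smul_right] at h2
      rw [Q_apply]
      have h3 := hXw x hx
      rw [real_inner_comm] at h3
      have h4 := mul_le_mul_of_nonneg_left h3 hs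
      linarith
    have h2 : supp A (Q w u v) ≤ inner ℝ w v * (p + ε) + |inner ℝ u v| * supp K u +
        inner ℝ u v * β := by
      apply supp_le hA.ne
      rintro _ ⟨k, hk, rfl⟩
      simp only
      rw [Q_apply, inner_add_left, inner_add_right, inner_add_right, real_inner_smul_right,
        real_inner_smul_right, real_inner_smul_right, hyw]
      have h3 := le_supp hK.compact hk ((inner ℝ u v) • u)
      rw [supp_smul_sym hK.compact hK.ne hKs hu, real_inner_smul_right] at h3
      have h4 := hKw k hk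
      rw [real_inner_comm] at h4
      have h5 := mul_le_mul_of_nonneg_left h4 hs
      rw [real_inner_smul_right, ← hβ]
      linarith
    rw [hd]
    nlinarith
  -- integrate
  have i1 := ind_integrable h (f := fun v => |inner ℝ u v|) (by fun_prop) zero_le_one
    (fun v => by rw [abs_abs]; exact abs_u_le h v)
  have i2 := ind_integrable h (f := fun v => inner ℝ w v) (by fun_prop) zero_le_one
    (fun v => abs_w_le h v)
  have i3 := ind_integrable h (f := fun v => inner ℝ u v) (by fun_prop) zero_le_one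
    (fun v => abs_u_le h v)
  obtain ⟨CX, hCX0, hCX⟩ := supp_abs_le' hX.compact hX.ne
  obtain ⟨CA, hCA0, hCA⟩ := supp_abs_le' hA.compact hA.ne
  have i4 : Integrable ((SS w u).indicator
      (fun v => (supp X (Q w u v) - supp A (Q w u v)) * Real.exp (-‖Q w u v‖ ^ 2))) := by
    have c1 := supp_continuous hX.compact
    have c2 := supp_continuous hA.compact
    refine ind_integrable h (f := fun v => supp X (Q w u v) - supp A (Q w u v)) (by fun_prop)
      (c := CX + CA) (by positivity) (fun v => ?_)
    refine (abs_sub _ _).trans ?_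
    have h1 := hCX (Q w u v)
    have h2 := hCA (Q w u v)
    have h3 := Q_le h v
    have h4 := mul_le_mul_of_nonneg_left h3 hCX0
    have h5 := mul_le_mul_of_nonneg_left h3 hCA0
    linarith
  have hle : ∫ v, (d * (SS w u).indicator (fun v => |inner ℝ u v| * Real.exp (-‖Q w u v‖ ^ 2)) v -
      2 * ε * (SS w u).indicator (fun v => inner ℝ w v * Real.exp (-‖Q w u v‖ ^ 2)) v -
      β * (SS w u).indicator (fun v => inner ℝ u v * Real.exp (-‖Q w u v‖ ^ 2)) v) ≤
      ∫ v, (SS w u).indicator
      (fun v => (supp X (Q w u v) - supp A (Q w u v)) * Real.exp (-‖Q w u v‖ ^ 2)) v := by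
    apply integral_mono (((i1.const_mul d).sub (i2.const_mul (2 * ε))).sub (i3.const_mul β)) i4
    intro v
    simp only [Pi.sub_apply]
    by_cases hv : v ∈ SS w u
    · rw [indicator_of_mem hv, indicator_of_mem hv, indicator_of_mem hv, indicator_of_mem hv]
      have h1 := mul_le_mul_of_nonneg_right (hpt v hv) (Real.exp_pos (-‖Q w u v‖ ^ 2)).le
      linarith
    · rw [indicator_of_notMem hv, indicator_of_notMem hv, indicator_of_notMem hv,
        indicator_of_notMem hv]
      simp
  have e1 : ∫ v, (d * (SS w u).indicator (fun v => |inner ℝ u v| * Real.exp (-‖Q w u v‖ ^ 2)) v -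
      2 * ε * (SS w u).indicator (fun v => inner ℝ w v * Real.exp (-‖Q w u v‖ ^ 2)) v) =
      d * J1 - 2 * ε * J2 := by
    rw [integral_sub (i1.const_mul d) (i2.const_mul (2 * ε)), integral_const_mul,
      integral_const_mul]
  have e2 : ∫ v, (d * (SS w u).indicator (fun v => |inner ℝ u v| * Real.exp (-‖Q w u v‖ ^ 2)) v -
      2 * ε * (SS w u).indicator (fun v => inner ℝ w v * Real.exp (-‖Q w u v‖ ^ 2)) v -
      β * (SS w u).indicator (fun v => inner ℝ u v * Real.exp (-‖Q w u v‖ ^ 2)) v) =
      (∫ v, (d * (SS w u).indicator (fun v => |inner ℝ u v| * Real.exp (-‖Q w u v‖ ^ 2)) v -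
      2 * ε * (SS w u).indicator (fun v => inner ℝ w v * Real.exp (-‖Q w u v‖ ^ 2)) v)) -
      ∫ v, β * (SS w u).indicator (fun v => inner ℝ u v * Real.exp (-‖Q w u v‖ ^ 2)) v :=
    integral_sub ((i1.const_mul d).sub (i2.const_mul (2 * ε))) (i3.const_mul β)
  rw [e2, e1, integral_const_mul, J3_zero hw hu] at hle
  have hfin : d * J1 ≤ 2 * ε * J2 := by
    have : (∫ v, (SS w u).indicator
      (fun v => (supp X (Q w u v) - supp A (Q w u v)) * Real.exp (-‖Q w u v‖ ^ 2)) v) ≤ 0 := hlim
    linarith
  have hd2 : d ≤ 2 * J2 / J1 * ε := by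
    rw [div_mul_eq_mul_div, le_div_iff₀ hJ1p]
    linarith
  rw [hd] at hd2
  linarith

end Pool.Agent.X137.MW
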