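import Pool.Agent.X137.MW.Dir

set_option autoImplicit false

/-!
# Invariance under orthogonal translations of symmetric sets when `H ≠ 0`
-/

namespace Pool.Agent.X137.MW

open MeasureTheory Set Filter Topology

variable {n : ℕ} {w u : Eu n} {H : Submodule ℝ (Eu n)} {b : Prop}

lemma sep {A : Set (Eu n)} (hA : IsCompact A) (hc : Convex ℝ A) (hne : A.Nonempty) {x : Eu n}
    (hx : x ∉ A) : ∃ v : Eu n, supp A v < inner ℝ x v := by
  obtain ⟨f, c, h1, h2⟩ := geometric_hahn_banach_closed_point hc hA.isClosed hx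
  refine ⟨(InnerProductSpace.toDual ℝ (Eu n)).symm f, ?_⟩
  have e : ∀ z : Eu n, inner ℝ z ((InnerProductSpace.toDual ℝ (Eu n)).symm f) = f z := by
    intro z
    rw [real_inner_comm, InnerProductSpace.toDual_symm_apply]
  rw [e]
  refine lt_of_le_of_lt (supp_le hne (c := c) ?_) h2
  intro z hz
  rw [e]
  exact (h1 z hz).le

lemma eq_of_V {A B : Set (Eu n)} (hA : IsCompact A) (hAc : Convex ℝ A) (hAn : A.Nonempty)
    (hB : IsCompact B) (h : A ⊆ B) (hV : V B ≤ V A) : A = B := by
  apply Subset.antisymm h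
  intro x hx
  by_contra hxA
  obtain ⟨v, hv⟩ := sep hA hAc hAn hxA
  have hBn : B.Nonempty := hAn.mono h
  have hc1 := supp_continuous hA
  have hc2 := supp_continuous hB
  have i1 := supp_integrable hA hAn
  have i2 := supp_integrable hB hBn
  have hpos : 0 < ∫ v : Eu n, (supp B v - supp A v) * Real.exp (-‖v‖ ^ 2) := by
    refine integral_pos_aux (v := v) (by fun_prop) ?_ ?_ ?_
    · exact fun v => mul_nonneg (sub_nonneg.2 (supp_mono hAn hB h v)) (Real.exp_pos _).le
    · refine (i2.sub i1).congr (Filter.Eventually.of_forall fun v => ?_)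
      simp only [Pi.sub_apply]
      ring
    · apply mul_pos _ (Real.exp_pos _)
      have := le_supp hB hx v
      linarith
  have e : ∫ v : Eu n, (supp B v - supp A v) * Real.exp (-‖v‖ ^ 2) = V B - V A := by
    unfold V
    rw [← integral_sub i2 i1]
    congr 1
    ext v
    ring
  linarith

lemma supp_translate {K : Set (Eu n)} (hK : IsCompact K) (hne : K.Nonempty) (y v : Eu n) :
    supp ((fun x => x + y) '' K) v = supp K v + inner ℝ y v := by
  apply le_antisymm
  · apply supp_le (hne.image _)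
    rintro _ ⟨k, hk, rfl⟩
    rw [inner_add_left]
    linarith [le_supp hK hk v]
  · obtain ⟨k, hk, he⟩ := supp_attained hK hne v
    have h1 := le_supp (hK.image (f := fun x => x + y) (by fun_prop)) ⟨k, hk, rfl⟩ v
    rw [inner_add_left] at h1
    rw [← he]
    exact h1

lemma V_translate {K : Set (Eu n)} (hK : IsCompact K) (hne : K.Nonempty) (y : Eu n) :
    V ((fun x => x + y) '' K) = V K := by
  have h1 := two_V (hK.image (f := fun x => x + y) (by fun_prop)) (hne.image _)
  have h2 := two_V hK hne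
  have e : ∀ v : Eu n, supp ((fun x => x + y) '' K) v + supp ((fun x => x + y) '' K) (-v) =
      supp K v + supp K (-v) := by
    intro v
    rw [supp_translate hK hne, supp_translate hK hne, inner_neg_right]
    ring
  simp only [e] at h1
  linarith

lemma supp_tendsto {Z : ℕ → Set (Eu n)} (hZ : ∀ m, IsCompact (Z m)) (hne : ∀ m, (Z m).Nonempty)
    (hanti : Antitone Z) (v : Eu n) :
    Tendsto (fun m => supp (Z m) v) atTop (𝓝 (supp (⋂ m, Z m) v)) := by
  have hne0 : (⋂ m, Z m).Nonempty :=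
    IsCompact.nonempty_iInter_of_sequence_nonempty_isCompact_isClosed Z
      (fun m => hanti (Nat.le_succ m)) hne (hZ 0) (fun m => (hZ m).isClosed)
  have hanti' : Antitone (fun m => supp (Z m) v) := fun a c hac =>
    supp_mono (hne c) (hZ a) (hanti hac) v
  have hlb : ∀ m, supp (⋂ m, Z m) v ≤ supp (Z m) v := fun m =>
    supp_mono hne0 (hZ m) (iInter_subset _ m) v
  rw [Metric.tendsto_atTop]
  intro ε hε
  have hex : ∃ m, supp (Z m) v < supp (⋂ m, Z m) v + ε := by
    by_contra hcon
    push Not at hcon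
    set c := supp (⋂ m, Z m) v + ε with hc
    have hcl : IsClosed {x : Eu n | c ≤ inner ℝ x v} :=
      isClosed_le continuous_const (by fun_prop)
    have hW := IsCompact.nonempty_iInter_of_sequence_nonempty_isCompact_isClosed
      (fun m => Z m ∩ {x : Eu n | c ≤ inner ℝ x v})
      (fun m => inter_subset_inter_left _ (hanti (Nat.le_succ m)))
      (fun m => by
        obtain ⟨x, hx, he⟩ := supp_attained (hZ m) (hne m) v
        refine ⟨x, hx, ?_⟩
        show c ≤ _
        rw [he]; exact hcon m)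
      ((hZ 0).inter_right hcl) (fun m => (hZ m).isClosed.inter hcl)
    obtain ⟨x, hx⟩ := hW
    rw [mem_iInter] at hx
    have h1 : x ∈ ⋂ m, Z m := mem_iInter.2 fun m => (hx m).1
    have h2 : c ≤ inner ℝ x v := (hx 0).2
    have hcomp : IsCompact (⋂ m, Z m) :=
      (hZ 0).of_isClosed_subset (isClosed_iInter fun m => (hZ m).isClosed) (iInter_subset _ 0)
    have h3 := le_supp hcomp h1 v
    linarith
  obtain ⟨m, hm⟩ := hex
  refine ⟨m, fun k hk => ?_⟩
  rw [Real.dist_eq, abs_lt]
  have h1 := hanti' hk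
  have h2 := hlb k
  simp only at h1
  constructor <;> linarith

lemma V_tendsto {Z : ℕ → Set (Eu n)} (hZ : ∀ m, IsCompact (Z m)) (hne : ∀ m, (Z m).Nonempty)
    (hanti : Antitone Z) : Tendsto (fun m => V (Z m)) atTop (𝓝 (V (⋂ m, Z m))) := by
  obtain ⟨R, hR0, hR⟩ := (hZ 0).isBounded.exists_pos_norm_le
  have hb : ∀ m (v : Eu n), |supp (Z m) v| ≤ R * ‖v‖ := by
    intro m v
    obtain ⟨x, hx, he⟩ := supp_attained (hZ m) (hne m) v
    rw [← he]
    calc |inner ℝ x v| ≤ ‖x‖ * ‖v‖ := abs_real_inner_le_norm x v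
      _ ≤ R * ‖v‖ := by gcongr; exact hR x (hanti (Nat.zero_le m) hx)
  unfold V
  refine tendsto_integral_of_dominated_convergence
    (fun v => R * (‖v‖ * Real.exp (-(1 * ‖v‖ ^ 2)))) ?_
    ((gauss_int' (n := n) one_pos).const_mul R) ?_ ?_
  · intro m
    have := supp_continuous (hZ m)
    apply Continuous.aestronglyMeasurable
    fun_prop
  · intro m
    refine Filter.Eventually.of_forall fun v => ?_
    rw [Real.norm_eq_abs, abs_mul, abs_of_pos (Real.exp_pos _), one_mul, ← mul_assoc]
    exact mul_le_mul_of_nonneg_right (hb m v) (Real.exp_pos _).le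
  · refine Filter.Eventually.of_forall fun v => ?_
    exact (supp_tendsto hZ hne hanti v).mul_const _

/-! ### projections -/

/-- orthogonal projection -/
noncomputable abbrev PP (H : Submodule ℝ (Eu n)) : Eu n →L[ℝ] Eu n := H.starProjection

lemma PP_mem (x : Eu n) : PP H x ∈ H := H.starProjection_apply_mem x

lemma sub_PP_mem (x : Eu n) : x - PP H x ∈ Hᗮ := H.sub_starProjection_mem_orthogonal x

lemma PP_of_mem {x : Eu n} (hx : x ∈ H) : PP H x = x := H.starProjection_eq_self_iff.2 hx

lemma PP_of_mem_orth {y : Eu n} (hy : y ∈ Hᗮ) : PP H y = 0 :=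
  H.starProjection_apply_eq_zero_iff.2 hy

lemma PP_refl (x : Eu n) : PP H (H.reflection x) = PP H x := by
  rw [Submodule.reflection_apply, map_sub, map_nsmul, PP_of_mem (PP_mem x), two_smul]
  abel

lemma inner_PP {h : Eu n} (hh : h ∈ H) (x : Eu n) : inner ℝ x h = inner ℝ (PP H x) h := by
  have h1 : inner ℝ h (x - PP H x) = 0 :=
    (Submodule.mem_orthogonal H _).1 (sub_PP_mem x) h hh
  rw [inner_sub_right, real_inner_comm, real_inner_comm (PP H x)] at h1
  linarith

/-- **Invariance under orthogonal translations.** -/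
theorem invariant {D : Set (Eu n) → Set (Eu n)} (hD : Good H b D) (hH : H ≠ ⊥)
    {K : Set (Eu n)} (hK : Cls b K) (hKs : Sym H K) {y : Eu n} (hy : y ∈ Hᗮ) :
    D ((fun x => x + y) '' K) = K := by
  -- a unit vector in `H`
  obtain ⟨w, hw, hw1⟩ : ∃ w ∈ H, ‖w‖ = 1 := by
    obtain ⟨h, hh, h0⟩ := (Submodule.ne_bot_iff H).1 hH
    refine ⟨‖h‖⁻¹ • h, H.smul_mem _ hh, ?_⟩
    rw [norm_smul, norm_inv, norm_norm, inv_mul_cancel₀ (norm_ne_zero_iff.2 h0)]
  have hKy : Cls b ((fun x => x + y) '' K) := hK.translate y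
  have hY := hD.cls _ hKy
  suffices hsub : K ⊆ D ((fun x => x + y) '' K) by
    refine (eq_of_V hK.compact hK.convex hK.ne hY.compact hsub ?_).symm
    rw [hD.vol _ hKy, V_translate hK.compact hK.ne]
  intro q hq
  set p := PP H q with hp
  let ε : ℕ → ℝ := fun m => 1 / ((m : ℝ) + 1)
  have hε : ∀ m, 0 < ε m := fun m => by simp only [ε]; positivity
  have hεanti : Antitone ε := by
    intro a c hac
    simp only [ε]
    have : (a : ℝ) ≤ c := by exact_mod_cast hac
    exact one_div_le_one_div_of_le (by positivity) (by linarith)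
  have hεt : Tendsto ε atTop (𝓝 0) := tendsto_one_div_add_atTop_nhds_zero_nat
  -- slabs
  let Sl : ℝ → Set (Eu n) := fun e => {x | ‖PP H x - p‖ ≤ e}
  have hSlc : ∀ e, IsClosed (Sl e) := fun e => isClosed_le (by fun_prop) continuous_const
  have hSlconv : ∀ e, Convex ℝ (Sl e) := by
    intro e x hx z hz a c ha hc hac
    show ‖PP H (a • x + c • z) - p‖ ≤ e
    have e1 : PP H (a • x + c • z) - p = a • (PP H x - p) + c • (PP H z - p) := by
      have : p = (a + c) • p := by rw [hac, one_smul]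
      conv_lhs => rw [this]
      rw [map_add, map_smul, map_smul]
      module
    rw [e1]
    calc ‖a • (PP H x - p) + c • (PP H z - p)‖ ≤ ‖a • (PP H x - p)‖ + ‖c • (PP H z - p)‖ :=
          norm_add_le _ _
      _ ≤ a * e + c * e := by
        rw [norm_smul, norm_smul, Real.norm_eq_abs, Real.norm_eq_abs, abs_of_nonneg ha,
          abs_of_nonneg hc]
        exact add_le_add (mul_le_mul_of_nonneg_left hx ha) (mul_le_mul_of_nonneg_left hz hc)
      _ = e := by rw [← add_mul, hac, one_mul]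
  have hSlrefl : ∀ e, ∀ x ∈ Sl e, H.reflection x ∈ Sl e := by
    intro e x hx
    show ‖PP H (H.reflection x) - p‖ ≤ e
    rw [PP_refl]; exact hx
  let Km : ℕ → Set (Eu n) := fun m => K ∩ Sl (ε m)
  have hKmanti : Antitone Km := fun a c hac =>
    inter_subset_inter_right _ (fun x (hx : ‖_‖ ≤ _) => hx.trans (hεanti hac))
  have hqKm : ∀ m, q ∈ Km m := fun m => ⟨hq, by
    show ‖PP H q - p‖ ≤ ε m
    rw [← hp, sub_self, norm_zero]; exact (hε m).le⟩
  have hKmcls : ∀ m, Cls b (Km m) := by
    intro m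
    refine ⟨hK.compact.inter_right (hSlc _), hK.convex.inter (hSlconv _), ⟨q, hqKm m⟩, ?_⟩
    intro hb
    obtain ⟨c, hc⟩ := hK.2.2.2 hb
    -- a point of the interior close to `q`
    obtain ⟨t, ht0, ht1, ht2⟩ : ∃ t : ℝ, 0 < t ∧ t ≤ 1 ∧ t * ‖PP H c - p‖ < ε m := by
      refine ⟨min 1 (ε m / (2 * (‖PP H c - p‖ + 1))), ?_, min_le_left _ _, ?_⟩
      · exact lt_min one_pos (by have := hε m; positivity)
      · have h1 : min 1 (ε m / (2 * (‖PP H c - p‖ + 1))) * ‖PP H c - p‖ ≤
            ε m / (2 * (‖PP H c - p‖ + 1)) * ‖PP H c - p‖ :=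
          mul_le_mul_of_nonneg_right (min_le_right _ _) (norm_nonneg _)
        refine lt_of_le_of_lt h1 ?_
        rw [div_mul_eq_mul_div, div_lt_iff₀ (by positivity)]
        have := hε m
        nlinarith [norm_nonneg (PP H c - p)]
    have hz : (1 - t) • q + t • c ∈ interior K :=
      hK.convex.combo_self_interior_mem_interior hq hc (by linarith) ht0 (by ring)
    have hz2 : ‖PP H ((1 - t) • q + t • c) - p‖ < ε m := by
      have e1 : PP H ((1 - t) • q + t • c) - p = t • (PP H c - p) := by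
        rw [map_add, map_smul, map_smul, ← hp]; module
      rw [e1, norm_smul, Real.norm_eq_abs, abs_of_pos ht0]
      exact ht2
    refine ⟨(1 - t) • q + t • c, ?_⟩
    have hop : IsOpen (interior K ∩ {x : Eu n | ‖PP H x - p‖ < ε m}) :=
      isOpen_interior.inter (isOpen_lt (by fun_prop) continuous_const)
    refine interior_maximal ?_ hop ⟨hz, hz2⟩
    have hsub' : {x : Eu n | ‖PP H x - p‖ < ε m} ⊆ Sl (ε m) := fun x hx => by
      have hx' : ‖PP H x - p‖ < ε m := hx
      exact hx'.le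
    exact inter_subset_inter interior_subset hsub'
  have hKmsym : ∀ m, Sym H (Km m) := by
    intro m
    rw [sym_iff]
    rintro x ⟨hx1, hx2⟩
    exact ⟨(sym_iff H K).1 hKs x hx1, hSlrefl _ x hx2⟩
  let Am : ℕ → Set (Eu n) := fun m => (fun x => x + y) '' Km m
  have hAmcls : ∀ m, Cls b (Am m) := fun m => (hKmcls m).translate y
  let Xm : ℕ → Set (Eu n) := fun m => D (Am m)
  have hXmcls : ∀ m, Cls b (Xm m) := fun m => hD.cls _ (hAmcls m)
  have hXmanti : Antitone Xm := fun a c hac =>
    hD.mono _ _ (hAmcls c) (hAmcls a) (image_mono (hKmanti hac))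
  have hXmY : ∀ m, Xm m ⊆ D ((fun x => x + y) '' K) := fun m =>
    hD.mono _ _ (hAmcls m) hKy (image_mono inter_subset_left)
  -- slab property
  have hXmSl : ∀ m, Xm m ⊆ Sl (ε m) := by
    intro m
    obtain ⟨R, hR⟩ := (hAmcls m).compact.isBounded.exists_norm_le
    have hsub : Am m ⊆ Sl (ε m) ∩ Metric.closedBall 0 R := by
      intro x hx
      refine ⟨?_, by rw [mem_closedBall_zero_iff]; exact hR x hx⟩
      obtain ⟨k, hk, rfl⟩ := hx
      show ‖PP H (k + y) - p‖ ≤ ε m
      rw [map_add, PP_of_mem_orth hy, add_zero]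
      exact hk.2
    have hB : Cls b (Sl (ε m) ∩ Metric.closedBall 0 R) := by
      refine ⟨(isCompact_closedBall 0 R).inter_left (hSlc _),
        (hSlconv _).inter (convex_closedBall 0 R), (hAmcls m).ne.mono hsub, fun hb => ?_⟩
      exact ((hAmcls m).2.2.2 hb).mono (interior_mono hsub)
    have hBs : Sym H (Sl (ε m) ∩ Metric.closedBall 0 R) := by
      rw [sym_iff]
      rintro x ⟨hx1, hx2⟩
      refine ⟨hSlrefl _ x hx1, ?_⟩
      rw [mem_closedBall_zero_iff] at hx2 ⊢
      rwa [LinearIsometryEquiv.norm_map]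
    have h1 := hD.mono _ _ (hAmcls m) hB hsub
    rw [hD.inv _ hB hBs] at h1
    exact h1.trans inter_subset_left
  -- directional bound
  have hdir : ∀ u ∈ Hᗮ, ‖u‖ = 1 → ∃ C : ℝ, ∀ m, supp (Xm m) u ≤ supp (Km m) u + C * ε m := by
    intro u hu hu1
    have hON : ON w u := ⟨hw1, hu1, (Submodule.mem_orthogonal H u).1 hu w hw⟩
    obtain ⟨C, -, hC⟩ := keyB hON hw hu
    refine ⟨C, fun m => ?_⟩
    have habs : ∀ x ∈ Sl (ε m), |inner ℝ w x - inner ℝ w p| ≤ ε m := by
      intro x hx
      rw [real_inner_comm, inner_PP hw, real_inner_comm, ← inner_sub_right]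
      calc |inner ℝ w (PP H x - p)| ≤ ‖w‖ * ‖PP H x - p‖ := abs_real_inner_le_norm _ _
        _ ≤ 1 * ε m := by rw [hw1]; exact mul_le_mul_of_nonneg_left hx zero_le_one
        _ = ε m := one_mul _
    refine hC b D hD (Km m) y (inner ℝ w p) (ε m) (hKmcls m) (hKmsym m) hy ?_ ?_
    · intro k hk
      have := (abs_le.1 (habs k hk.2)).2
      linarith
    · intro x hx
      have := (abs_le.1 (habs x (hXmSl m hx))).1
      linarith
  -- limits
  set X0 := ⋂ m, Xm m with hX0
  set Kp := ⋂ m, Km m with hKp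
  have hX0comp : IsCompact X0 := (hXmcls 0).compact.of_isClosed_subset
    (isClosed_iInter fun m => (hXmcls m).compact.isClosed) (iInter_subset _ 0)
  have hX0conv : Convex ℝ X0 := convex_iInter fun m => (hXmcls m).convex
  have hX0ne : X0.Nonempty :=
    IsCompact.nonempty_iInter_of_sequence_nonempty_isCompact_isClosed Xm
      (fun m => hXmanti (Nat.le_succ m)) (fun m => (hXmcls m).ne) (hXmcls 0).compact
      (fun m => (hXmcls m).compact.isClosed)
  have hKpcomp : IsCompact Kp := (hKmcls 0).compact.of_isClosed_subset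
    (isClosed_iInter fun m => (hKmcls m).compact.isClosed) (iInter_subset _ 0)
  have hKpconv : Convex ℝ Kp := convex_iInter fun m => (hKmcls m).convex
  have hKpq : q ∈ Kp := mem_iInter.2 hqKm
  have hPeq : ∀ x, (∀ m, x ∈ Sl (ε m)) → PP H x = p := by
    intro x hx
    have h1 : ‖PP H x - p‖ ≤ 0 := ge_of_tendsto' hεt hx
    exact sub_eq_zero.1 (norm_le_zero_iff.1 h1)
  have hsubKp : X0 ⊆ Kp := by
    intro x hx
    by_contra hxK
    have hxP : PP H x = p := hPeq x fun m => hXmSl m (mem_iInter.1 hx m)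
    obtain ⟨v, hv⟩ := sep hKpcomp hKpconv ⟨q, hKpq⟩ hxK
    set u := v - PP H v with hu
    have huH : u ∈ Hᗮ := sub_PP_mem v
    have hsplit : ∀ z, PP H z = p → inner ℝ z v = inner ℝ p (PP H v) + inner ℝ z u := by
      intro z hz
      have e1 : v = PP H v + u := by rw [hu]; abel
      conv_lhs => rw [e1]
      rw [inner_add_right, inner_PP (PP_mem v) z, hz]
    obtain ⟨k, hk, hke⟩ := supp_attained hKpcomp ⟨q, hKpq⟩ u
    have hkP : PP H k = p := hPeq k fun m => (mem_iInter.1 hk m).2
    have h1 : inner ℝ p (PP H v) + supp Kp u ≤ supp Kp v := by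
      rw [← hke, ← hsplit k hkP]
      exact le_supp hKpcomp hk v
    rw [hsplit x hxP] at hv
    have h2 : supp Kp u < inner ℝ x u := by linarith
    have hu0 : u ≠ 0 := by
      intro h0
      rw [h0, inner_zero_right] at h2
      have : supp Kp (0 : Eu n) = 0 := by
        have := supp_smul hKpcomp ⟨q, hKpq⟩ (le_refl (0:ℝ)) (0 : Eu n)
        simpa using this
      linarith
    have hun : 0 < ‖u‖ := norm_pos_iff.2 hu0
    obtain ⟨C, hC⟩ := hdir (‖u‖⁻¹ • u) (Hᗮ.smul_mem _ huH) (by
      rw [norm_smul, norm_inv, norm_norm, inv_mul_cancel₀ hun.ne'])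
    have h3 : ∀ m, inner ℝ x (‖u‖⁻¹ • u) ≤ supp (Km m) (‖u‖⁻¹ • u) + C * ε m := fun m =>
      (le_supp (hXmcls m).compact (mem_iInter.1 hx m) _).trans (hC m)
    have h4 : Tendsto (fun m => supp (Km m) (‖u‖⁻¹ • u) + C * ε m) atTop
        (𝓝 (supp Kp (‖u‖⁻¹ • u) + C * 0)) :=
      (supp_tendsto (fun m => (hKmcls m).compact) (fun m => (hKmcls m).ne) hKmanti _).add
        (hεt.const_mul C)
    have h5 := ge_of_tendsto' h4 h3
    rw [mul_zero, add_zero, supp_smul hKpcomp ⟨q, hKpq⟩ (by positivity),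
      real_inner_smul_right] at h5
    have h6 := (mul_le_mul_iff_of_pos_left (inv_pos.2 hun)).1 h5
    linarith
  have hVle : V Kp ≤ V X0 := by
    have h1 := V_tendsto (fun m => (hXmcls m).compact) (fun m => (hXmcls m).ne) hXmanti
    refine ge_of_tendsto' h1 fun m => ?_
    have h2 : V (Xm m) = V (Km m) := by
      show V (D (Am m)) = _
      rw [hD.vol _ (hAmcls m)]
      exact V_translate (hKmcls m).compact (hKmcls m).ne y
    rw [h2]
    exact V_mono hKpcomp ⟨q, hKpq⟩ (hKmcls m).compact (iInter_subset _ m)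
  have heq := eq_of_V hX0comp hX0conv hX0ne hKpcomp hsubKp hVle
  have hqX : q ∈ X0 := by rw [heq]; exact hKpq
  exact hXmY 0 (mem_iInter.1 hqX 0)

end Pool.Agent.X137.MW
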