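import Pool.Agent.X137.MW.Plane

set_option autoImplicit false

/-!
# The limit of the basic inequality
-/

namespace Pool.Agent.X137.MW

open MeasureTheory Set Filter Topology

variable {n : ℕ} {w u : Eu n} {H : Submodule ℝ (Eu n)} {b : Prop}

lemma gauss_int {a : ℝ} (ha : 0 < a) :
    Integrable (fun v : Eu n => Real.exp (-(a * ‖v‖ ^ 2))) := by
  by_contra h
  have h1 := GaussianFourier.integral_rexp_neg_mul_sq_norm (V := Eu n) (b := a) ha
  have e : (fun v : Eu n => Real.exp (-a * ‖v‖ ^ 2)) = fun v : Eu n => Real.exp (-(a * ‖v‖ ^ 2)) := by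
    ext v; congr 1; ring
  rw [e, integral_undef h] at h1
  have : (0:ℝ) < (Real.pi / a) ^ (Module.finrank ℝ (Eu n) / 2 : ℝ) := by positivity
  linarith

lemma gauss_int' {a : ℝ} (ha : 0 < a) :
    Integrable (fun v : Eu n => ‖v‖ * Real.exp (-(a * ‖v‖ ^ 2))) := by
  refine ((gauss_int (n := n) (half_pos ha)).const_mul (1 + 2 / a)).mono' (by fun_prop) ?_
  refine Filter.Eventually.of_forall fun v => ?_
  rw [Real.norm_eq_abs, abs_mul, abs_of_pos (Real.exp_pos _), abs_of_nonneg (norm_nonneg v)]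
  have h1 : ‖v‖ ≤ (1 + 2 / a) * Real.exp (a / 2 * ‖v‖ ^ 2) := by
    have h2 := Real.add_one_le_exp (a / 2 * ‖v‖ ^ 2)
    have h3 : ‖v‖ ≤ 1 + ‖v‖ ^ 2 := by nlinarith [sq_nonneg (‖v‖ - 1)]
    have h4 : 1 + ‖v‖ ^ 2 ≤ (1 + 2 / a) * (a / 2 * ‖v‖ ^ 2 + 1) := by
      have h5 : (1 + 2 / a) * (a / 2 * ‖v‖ ^ 2 + 1) =
          1 + ‖v‖ ^ 2 + (a / 2 * ‖v‖ ^ 2 + 2 / a) := by field_simp; ring
      rw [h5]
      have : 0 ≤ a / 2 * ‖v‖ ^ 2 + 2 / a := by positivity
      linarith
    calc ‖v‖ ≤ 1 + ‖v‖ ^ 2 := h3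
      _ ≤ (1 + 2 / a) * (a / 2 * ‖v‖ ^ 2 + 1) := h4
      _ ≤ (1 + 2 / a) * Real.exp (a / 2 * ‖v‖ ^ 2) := by gcongr
  calc ‖v‖ * Real.exp (-(a * ‖v‖ ^ 2))
      ≤ ((1 + 2 / a) * Real.exp (a / 2 * ‖v‖ ^ 2)) * Real.exp (-(a * ‖v‖ ^ 2)) := by gcongr
    _ = (1 + 2 / a) * Real.exp (-(a / 2 * ‖v‖ ^ 2)) := by
        rw [mul_assoc, ← Real.exp_add]; congr 2; ring

lemma psi_continuous : Continuous (psi w u) := by
  unfold psi
  fun_prop

lemma psi_sub (h : ON w u) (v : Eu n) (t : ℝ) : psi w u (v - t • w) = psi w u v - t := by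
  have hQw : Q w u w = w := by rw [Q_apply, h.ww, h.uw]; simp
  unfold psi
  rw [map_sub, map_smul, hQw, inner_sub_right, inner_sub_right, real_inner_smul_right,
    real_inner_smul_right, h.ww, h.uw]
  have e : v - t • w - (Q w u v - t • w) = v - Q w u v := by abel
  rw [e, mul_zero, sub_zero, mul_one]
  ring

lemma psi_null (h : ON w u) : volume {v : Eu n | psi w u v = 0} = 0 := by
  have hconv : Convex ℝ {v : Eu n | 0 ≤ psi w u v} := by
    intro x hx y hy a c ha hc hac
    simp only [mem_ofPred_eq] at *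
    unfold psi at *
    have e1 : inner ℝ w (a • x + c • y) = a * inner ℝ w x + c * inner ℝ w y := by
      rw [inner_add_right, real_inner_smul_right, real_inner_smul_right]
    have e2 : |inner ℝ u (a • x + c • y)| ≤ a * |inner ℝ u x| + c * |inner ℝ u y| := by
      rw [inner_add_right, real_inner_smul_right, real_inner_smul_right]
      refine (abs_add_le _ _).trans ?_
      rw [abs_mul, abs_mul, abs_of_nonneg ha, abs_of_nonneg hc]
    have e3 : ‖a • x + c • y - Q w u (a • x + c • y)‖ ≤
        a * ‖x - Q w u x‖ + c * ‖y - Q w u y‖ := by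
      have e : a • x + c • y - Q w u (a • x + c • y) = a • (x - Q w u x) + c • (y - Q w u y) := by
        rw [map_add, map_smul, map_smul]; module
      rw [e]
      refine (norm_add_le _ _).trans ?_
      rw [norm_smul, norm_smul, Real.norm_eq_abs, Real.norm_eq_abs, abs_of_nonneg ha,
        abs_of_nonneg hc]
    rw [e1]
    nlinarith
  have hcl : IsClosed {v : Eu n | 0 ≤ psi w u v} := isClosed_le continuous_const psi_continuous
  have hf := hconv.addHaar_frontier (volume : Measure (Eu n))
  refine measure_mono_null ?_ hf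
  intro v hv
  simp only [mem_ofPred_eq] at hv
  rw [hcl.frontier_eq]
  refine ⟨by simp only [mem_ofPred_eq]; exact hv.ge, fun hint => ?_⟩
  have ht : Tendsto (fun t : ℝ => v - t • w) (𝓝[>] 0) (𝓝 v) := by
    have : Tendsto (fun t : ℝ => v - t • w) (𝓝 0) (𝓝 (v - (0:ℝ) • w)) :=
      (Continuous.tendsto (by fun_prop) 0)
    rw [zero_smul, sub_zero] at this
    exact this.mono_left nhdsWithin_le_nhds
  have h1 := ht.eventually (isOpen_interior.mem_nhds hint)
  obtain ⟨t, ht1, ht2⟩ := (h1.and self_mem_nhdsWithin).exists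
  have h1' : v - t • w ∈ interior {v : Eu n | 0 ≤ psi w u v} := ht1
  have h2 : v - t • w ∈ {v : Eu n | 0 ≤ psi w u v} := interior_subset h1'
  rw [mem_ofPred_eq, psi_sub h, hv] at h2
  have ht3 : 0 < t := ht2
  linarith

/-- on the support of the squeezed integrands the vectors are controlled by their projections -/
lemma norm_le_four (h : ON w u) (v : Eu n) (hv : -psi w u v ≤ ‖v‖ / 2) : ‖v‖ ≤ 4 * ‖Q w u v‖ := by
  unfold psi at hv
  have h1 : ‖v‖ ≤ ‖Q w u v‖ + ‖v - Q w u v‖ := by
    calc ‖v‖ = ‖Q w u v + (v - Q w u v)‖ := by congr 1; abel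
      _ ≤ _ := norm_add_le _ _
  have h2 := (abs_le.1 (abs_s_le h v)).2
  have h3 := abs_nonneg (inner ℝ u v)
  linarith

lemma norm_le_of_psi_pos (h : ON w u) (v : Eu n) (hv : 0 < psi w u v) :
    ‖v‖ ^ 2 ≤ 2 * ‖Q w u v‖ ^ 2 := by
  unfold psi at hv
  rw [normsq_split h v]
  have h2 := (abs_le.1 (abs_s_le h v)).2
  have h3 := abs_nonneg (inner ℝ u v)
  have h4 := norm_nonneg (v - Q w u v)
  nlinarith

/-- **Limit of the basic inequality.** -/
lemma limit_ineq (h : ON w u) {X A : Set (Eu n)} (hX : Cls b X) (hA : Cls b A)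
    (hineq : ∀ N : ℝ, 0 < N → ∫ v : Eu n, (max (supp X v) (supp (TT w u N) v) -
      max (supp A v) (supp (TT w u N) v)) * Real.exp (-‖v‖ ^ 2) ≤ 0) :
    ∫ v : Eu n, {v : Eu n | 0 < psi w u v}.indicator
      (fun v => (supp X (Q w u v) - supp A (Q w u v)) * Real.exp (-‖Q w u v‖ ^ 2)) v ≤ 0 := by
  obtain ⟨CX, hCX0, hCX⟩ := supp_abs_le' hX.compact hX.ne
  obtain ⟨CA, hCA0, hCA⟩ := supp_abs_le' hA.compact hA.ne
  set C := max CX CA with hC
  have hC0 : 0 ≤ C := hCX0.trans (le_max_left _ _)
  have hX' : ∀ v, |supp X v| ≤ C * ‖v‖ := fun v =>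
    (hCX v).trans (mul_le_mul_of_nonneg_right (le_max_left _ _) (norm_nonneg v))
  have hA' : ∀ v, |supp A v| ≤ C * ‖v‖ := fun v =>
    (hCA v).trans (mul_le_mul_of_nonneg_right (le_max_right _ _) (norm_nonneg v))
  let NN : ℕ → ℝ := fun k => k + (2 * C + 1)
  have hNN : ∀ k, 1 ≤ NN k := fun k => by
    have : (0:ℝ) ≤ k := Nat.cast_nonneg k
    simp only [NN]; linarith
  have hNN0 : ∀ k, 0 < NN k := fun k => lt_of_lt_of_le one_pos (hNN k)
  have hNN2 : ∀ k, 2 * C ≤ NN k := fun k => by
    have : (0:ℝ) ≤ k := Nat.cast_nonneg k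
    simp only [NN]; linarith
  have hNNt : Tendsto NN atTop atTop :=
    tendsto_atTop_add_const_right _ _ tendsto_natCast_atTop_atTop
  let F0 : ℝ → Eu n → ℝ := fun N v => (max (supp X v) (supp (TT w u N) v) -
      max (supp A v) (supp (TT w u N) v)) * Real.exp (-‖v‖ ^ 2)
  have hF0c : ∀ N, 0 < N → Continuous (F0 N) := by
    intro N hN
    have h1 := supp_continuous hX.compact
    have h2 := supp_continuous hA.compact
    have h3 := supp_continuous (TT_cls h hN True).compact
    simp only [F0]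
    fun_prop
  let F : ℕ → Eu n → ℝ := fun k v => F0 (NN k) (LL w u (NN k) v)
  have hFint : ∀ k, ∫ v, F k v ≤ 0 := fun k =>
    integral_LL_nonpos h (hNN0 k) (F0 (NN k)) (hF0c _ (hNN0 k)) (hineq _ (hNN0 k))
  -- difference bound
  have hdiff : ∀ a c t : ℝ, |max a t - max c t| ≤ |a - c| := fun a c t => by
    have := abs_max_sub_max_le_max a t c t
    simpa using this
  have hbound : ∀ k v, ‖F k v‖ ≤ 2 * C * (‖v‖ * Real.exp (-(1 / 16 * ‖v‖ ^ 2))) := by
    intro k v
    have hLv := LL_le h (hNN k) v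
    have hxle : |supp X (LL w u (NN k) v)| ≤ C * ‖v‖ :=
      (hX' _).trans (mul_le_mul_of_nonneg_left hLv hC0)
    have hale : |supp A (LL w u (NN k) v)| ≤ C * ‖v‖ :=
      (hA' _).trans (mul_le_mul_of_nonneg_left hLv hC0)
    simp only [F, F0]
    rw [Real.norm_eq_abs, abs_mul, abs_of_pos (Real.exp_pos _)]
    by_cases hcase : -psi w u v ≤ ‖v‖ / 2
    · have h4 := norm_le_four h v hcase
      have h5 : ‖v‖ ^ 2 ≤ 16 * ‖LL w u (NN k) v‖ ^ 2 := by
        have h6 : ‖v‖ ≤ 4 * ‖LL w u (NN k) v‖ :=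
          h4.trans (by have := Q_le_LL h (NN k) v; linarith)
        nlinarith [norm_nonneg v]
      have h7 : |max (supp X (LL w u (NN k) v)) (supp (TT w u (NN k)) (LL w u (NN k) v)) -
          max (supp A (LL w u (NN k) v)) (supp (TT w u (NN k)) (LL w u (NN k) v))| ≤
            2 * C * ‖v‖ := by
        refine (hdiff _ _ _).trans ((abs_sub _ _).trans ?_)
        linarith
      calc _ ≤ (2 * C * ‖v‖) * Real.exp (-(1 / 16 * ‖v‖ ^ 2)) := by
            apply mul_le_mul h7 _ (Real.exp_pos _).le (by positivity)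
            apply Real.exp_le_exp.2
            linarith
        _ = _ := by ring
    · push Not at hcase
      have h8 := le_supp_TT_LL h (hNN0 k) v
      have h9 : C * ‖v‖ ≤ -(NN k * psi w u v) := by
        have h10 : ‖v‖ / 2 * (2 * C) ≤ (-psi w u v) * NN k := by
          apply mul_le_mul hcase.le (hNN2 k) (by positivity)
          have : 0 ≤ ‖v‖ / 2 := by positivity
          linarith
        linarith
      have h11 : supp X (LL w u (NN k) v) ≤ supp (TT w u (NN k)) (LL w u (NN k) v) :=
        (le_abs_self _).trans (hxle.trans (h9.trans h8))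
      have h12 : supp A (LL w u (NN k) v) ≤ supp (TT w u (NN k)) (LL w u (NN k) v) :=
        (le_abs_self _).trans (hale.trans (h9.trans h8))
      rw [max_eq_right h11, max_eq_right h12, sub_self, abs_zero, zero_mul]
      positivity
  have hlim := tendsto_integral_of_dominated_convergence
    (μ := (volume : Measure (Eu n))) (F := F)
    (f := {v : Eu n | 0 < psi w u v}.indicator
      (fun v => (supp X (Q w u v) - supp A (Q w u v)) * Real.exp (-‖Q w u v‖ ^ 2)))
    (fun v => 2 * C * (‖v‖ * Real.exp (-(1 / 16 * ‖v‖ ^ 2))))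
    (fun k => ((hF0c _ (hNN0 k)).comp (LL w u (NN k)).continuous).aestronglyMeasurable)
    ((gauss_int' (n := n) (a := 1 / 16) (by norm_num)).const_mul (2 * C))
    (fun k => Filter.Eventually.of_forall (hbound k)) ?_
  · exact le_of_tendsto' hlim hFint
  · have hae : ∀ᵐ v : Eu n, psi w u v ≠ 0 := by
      rw [ae_iff]
      simpa using psi_null h
    filter_upwards [hae] with v hv
    -- convergence of the squeezed vectors
    have hL : Tendsto (fun k => LL w u (NN k) v) atTop (𝓝 (Q w u v)) := by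
      have h1 : Tendsto (fun k => (NN k)⁻¹) atTop (𝓝 0) := hNNt.inv_tendsto_atTop
      have h2 : Tendsto (fun k => Q w u v + (NN k)⁻¹ • (v - Q w u v)) atTop
          (𝓝 (Q w u v + (0:ℝ) • (v - Q w u v))) :=
        tendsto_const_nhds.add (h1.smul_const _)
      rw [zero_smul, add_zero] at h2
      refine h2.congr fun k => ?_
      rw [LL_apply]
    rcases lt_or_gt_of_ne hv with hneg | hpos
    · rw [indicator_of_notMem (by simp only [mem_ofPred_eq, not_lt]; exact hneg.le)]
      have hev : ∀ᶠ k in atTop, F k v = 0 := by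
        have h1 : ∀ᶠ k in atTop, C * ‖v‖ / (-psi w u v) ≤ NN k :=
          hNNt.eventually_ge_atTop _
        filter_upwards [h1] with k hk
        have hk' : C * ‖v‖ ≤ -(NN k * psi w u v) := by
          rw [div_le_iff₀ (by linarith)] at hk
          linarith
        have hLv := LL_le h (hNN k) v
        have h8 := le_supp_TT_LL h (hNN0 k) v
        have hxle : |supp X (LL w u (NN k) v)| ≤ C * ‖v‖ :=
          (hX' _).trans (mul_le_mul_of_nonneg_left hLv hC0)
        have hale : |supp A (LL w u (NN k) v)| ≤ C * ‖v‖ :=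
          (hA' _).trans (mul_le_mul_of_nonneg_left hLv hC0)
        have h11 : supp X (LL w u (NN k) v) ≤ supp (TT w u (NN k)) (LL w u (NN k) v) :=
          (le_abs_self _).trans (hxle.trans (hk'.trans h8))
        have h12 : supp A (LL w u (NN k) v) ≤ supp (TT w u (NN k)) (LL w u (NN k) v) :=
          (le_abs_self _).trans (hale.trans (hk'.trans h8))
        simp only [F, F0]
        rw [max_eq_right h11, max_eq_right h12, sub_self, zero_mul]
      exact tendsto_nhds_of_eventually_eq hev
    · rw [indicator_of_mem (by simpa using hpos)]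
      have hs : 0 ≤ inner ℝ w v := by
        unfold psi at hpos
        have := abs_nonneg (inner ℝ u v)
        have := norm_nonneg (v - Q w u v)
        linarith
      have hev : ∀ᶠ k in atTop, F k v = (supp X (LL w u (NN k) v) - supp A (LL w u (NN k) v)) *
          Real.exp (-‖LL w u (NN k) v‖ ^ 2) := by
        have h1 : ∀ᶠ k in atTop, C * ‖v‖ / psi w u v ≤ NN k :=
          hNNt.eventually_ge_atTop _
        filter_upwards [h1] with k hk
        have hk' : C * ‖v‖ ≤ NN k * psi w u v := by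
          rwa [div_le_iff₀ hpos] at hk
        have hLv := LL_le h (hNN k) v
        have h8 := supp_TT_LL_le h (hNN0 k) v hs
        have hxle : |supp X (LL w u (NN k) v)| ≤ C * ‖v‖ :=
          (hX' _).trans (mul_le_mul_of_nonneg_left hLv hC0)
        have hale : |supp A (LL w u (NN k) v)| ≤ C * ‖v‖ :=
          (hA' _).trans (mul_le_mul_of_nonneg_left hLv hC0)
        have h11 : supp (TT w u (NN k)) (LL w u (NN k) v) ≤ supp X (LL w u (NN k) v) := by
          have := neg_abs_le (supp X (LL w u (NN k) v))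
          linarith
        have h12 : supp (TT w u (NN k)) (LL w u (NN k) v) ≤ supp A (LL w u (NN k) v) := by
          have := neg_abs_le (supp A (LL w u (NN k) v))
          linarith
        simp only [F, F0]
        rw [max_eq_left h11, max_eq_left h12]
      have hcont : Continuous (fun x : Eu n => (supp X x - supp A x) * Real.exp (-‖x‖ ^ 2)) := by
        have h1 := supp_continuous hX.compact
        have h2 := supp_continuous hA.compact
        fun_prop
      have ht := (hcont.tendsto (Q w u v)).comp hL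
      exact ht.congr' (hev.mono fun k hk => hk.symm)

end Pool.Agent.X137.MW
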