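import Pool.Agent.X137.MW.Sets

set_option autoImplicit false

/-!
# The plane spanned by two orthonormal vectors and the sets `TT`
-/

namespace Pool.Agent.X137.MW

open MeasureTheory Set Filter Topology

variable {n : ℕ}

/-- orthonormal pair -/
structure ON (w u : Eu n) : Prop where
  w1 : ‖w‖ = 1
  u1 : ‖u‖ = 1
  wu : inner ℝ w u = 0

/-- projection onto the plane -/
noncomputable def Q (w u : Eu n) : Eu n →L[ℝ] Eu n :=
  (innerSL ℝ w).smulRight w + (innerSL ℝ u).smulRight u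

lemma Q_apply (w u v : Eu n) : Q w u v = (inner ℝ w v) • w + (inner ℝ u v) • u := by
  simp [Q]

variable {w u : Eu n}

lemma ON.ww (h : ON w u) : inner ℝ w w = 1 := by
  rw [real_inner_self_eq_norm_sq, h.w1]; norm_num
lemma ON.uu (h : ON w u) : inner ℝ u u = 1 := by
  rw [real_inner_self_eq_norm_sq, h.u1]; norm_num
lemma ON.uw (h : ON w u) : inner ℝ u w = 0 := by
  rw [real_inner_comm]; exact h.wu

lemma inner_w_Q (h : ON w u) (v : Eu n) : inner ℝ w (Q w u v) = inner ℝ w v := by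
  rw [Q_apply, inner_add_right, real_inner_smul_right, real_inner_smul_right, h.ww, h.wu]; ring

lemma inner_u_Q (h : ON w u) (v : Eu n) : inner ℝ u (Q w u v) = inner ℝ u v := by
  rw [Q_apply, inner_add_right, real_inner_smul_right, real_inner_smul_right, h.uu, h.uw]; ring

lemma QQ (h : ON w u) (v : Eu n) : Q w u (Q w u v) = Q w u v := by
  rw [Q_apply w u (Q w u v), inner_w_Q h, inner_u_Q h, ← Q_apply]

lemma inner_Q_sub (h : ON w u) (x v : Eu n) : inner ℝ (Q w u x) (v - Q w u v) = 0 := by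
  rw [Q_apply w u x, inner_add_left, real_inner_smul_left, real_inner_smul_left, inner_sub_right,
    inner_sub_right, inner_w_Q h, inner_u_Q h]
  ring

lemma inner_split (h : ON w u) (x v : Eu n) :
    inner ℝ x v = inner ℝ w x * inner ℝ w v + inner ℝ u x * inner ℝ u v +
      inner ℝ (x - Q w u x) (v - Q w u v) := by
  have e1 : inner ℝ x v = inner ℝ (Q w u x + (x - Q w u x)) (Q w u v + (v - Q w u v)) := by
    congr 1 <;> abel
  have e2 : inner ℝ (x - Q w u x) (Q w u v) = 0 := by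
    rw [real_inner_comm]; exact inner_Q_sub h v x
  have e3 : inner ℝ (Q w u x) (Q w u v) = inner ℝ w x * inner ℝ w v + inner ℝ u x * inner ℝ u v := by
    rw [Q_apply w u x, inner_add_left, real_inner_smul_left, real_inner_smul_left, inner_w_Q h,
      inner_u_Q h]
  rw [e1, inner_add_left, inner_add_right, inner_add_right, e2, e3, inner_Q_sub h]
  ring

lemma normsq_Q (h : ON w u) (v : Eu n) :
    ‖Q w u v‖ ^ 2 = (inner ℝ w v) ^ 2 + (inner ℝ u v) ^ 2 := by
  rw [← real_inner_self_eq_norm_sq, inner_split h, QQ h, sub_self, inner_zero_left,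
    inner_w_Q h, inner_u_Q h]
  ring

lemma normsq_split (h : ON w u) (v : Eu n) :
    ‖v‖ ^ 2 = ‖Q w u v‖ ^ 2 + ‖v - Q w u v‖ ^ 2 := by
  rw [← real_inner_self_eq_norm_sq, inner_split h, normsq_Q h, real_inner_self_eq_norm_sq]
  ring

lemma abs_s_le (h : ON w u) (v : Eu n) : |inner ℝ w v| ≤ ‖Q w u v‖ := by
  apply abs_le_of_sq_le_sq' _ (norm_nonneg _) |> abs_le.2
  rw [normsq_Q h]
  nlinarith [sq_nonneg (inner ℝ u v)]

lemma abs_r_le (h : ON w u) (v : Eu n) : |inner ℝ u v| ≤ ‖Q w u v‖ := by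
  apply abs_le_of_sq_le_sq' _ (norm_nonneg _) |> abs_le.2
  rw [normsq_Q h]
  nlinarith [sq_nonneg (inner ℝ w v)]

lemma Q_le (h : ON w u) (v : Eu n) : ‖Q w u v‖ ≤ ‖v‖ := by
  apply le_of_sq_le_sq _ (norm_nonneg _)
  rw [normsq_split h v]
  nlinarith [sq_nonneg ‖v - Q w u v‖]

/-- The auxiliary symmetric sets. -/
def TT (w u : Eu n) (N : ℝ) : Set (Eu n) :=
  {x | inner ℝ w x ∈ Icc (-(2 * N)) (-N) ∧ |inner ℝ u x| ≤ N ∧ ‖x - Q w u x‖ ≤ N ^ 2}

lemma TT_cls (h : ON w u) {N : ℝ} (hN : 0 < N) (b : Prop) : Cls b (TT w u N) := by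
  have hin : ((-(3 / 2 * N)) • w) ∈ {x : Eu n | inner ℝ w x ∈ Ioo (-(2 * N)) (-N) ∧
      |inner ℝ u x| < N ∧ ‖x - Q w u x‖ < N ^ 2} := by
    have e1 : inner ℝ w ((-(3 / 2 * N)) • w) = -(3 / 2 * N) := by
      rw [real_inner_smul_right, h.ww]; ring
    have e2 : inner ℝ u ((-(3 / 2 * N)) • w) = 0 := by
      rw [real_inner_smul_right, h.uw]; ring
    refine ⟨?_, ?_, ?_⟩
    · rw [e1]; constructor <;> linarith
    · rw [e2, abs_zero]; exact hN
    · rw [Q_apply, e1, e2, zero_smul, add_zero, sub_self, norm_zero]; positivity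
  have hop : IsOpen {x : Eu n | inner ℝ w x ∈ Ioo (-(2 * N)) (-N) ∧
      |inner ℝ u x| < N ∧ ‖x - Q w u x‖ < N ^ 2} := by
    have h1 : IsOpen {x : Eu n | inner ℝ w x ∈ Ioo (-(2 * N)) (-N)} :=
      isOpen_Ioo.preimage (by fun_prop)
    have h2 : IsOpen {x : Eu n | |inner ℝ u x| < N} := isOpen_lt (by fun_prop) continuous_const
    have h3 : IsOpen {x : Eu n | ‖x - Q w u x‖ < N ^ 2} := isOpen_lt (by fun_prop) continuous_const
    exact h1.inter (h2.inter h3)
  have hsub : {x : Eu n | inner ℝ w x ∈ Ioo (-(2 * N)) (-N) ∧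
      |inner ℝ u x| < N ∧ ‖x - Q w u x‖ < N ^ 2} ⊆ TT w u N := by
    rintro x ⟨h1, h2, h3⟩
    exact ⟨⟨h1.1.le, h1.2.le⟩, h2.le, h3.le⟩
  refine ⟨?_, ?_, ⟨_, hsub hin⟩, fun _ => ⟨_, interior_maximal hsub hop hin⟩⟩
  · apply Metric.isCompact_of_isClosed_isBounded
    · have h1 : IsClosed {x : Eu n | inner ℝ w x ∈ Icc (-(2 * N)) (-N)} :=
        isClosed_Icc.preimage (by fun_prop)
      have h2 : IsClosed {x : Eu n | |inner ℝ u x| ≤ N} := isClosed_le (by fun_prop) continuous_const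
      have h3 : IsClosed {x : Eu n | ‖x - Q w u x‖ ≤ N ^ 2} :=
        isClosed_le (by fun_prop) continuous_const
      exact h1.inter (h2.inter h3)
    · rw [isBounded_iff_forall_norm_le]
      refine ⟨2 * N + N + N ^ 2, fun x hx => ?_⟩
      obtain ⟨⟨h1, h2⟩, h3, h4⟩ := hx
      have e : x = (inner ℝ w x) • w + (inner ℝ u x) • u + (x - Q w u x) := by
        rw [Q_apply]; abel
      calc ‖x‖ = ‖(inner ℝ w x) • w + (inner ℝ u x) • u + (x - Q w u x)‖ := by rw [← e]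
        _ ≤ ‖(inner ℝ w x) • w‖ + ‖(inner ℝ u x) • u‖ + ‖x - Q w u x‖ := norm_add₃_le
        _ ≤ 2 * N + N + N ^ 2 := by
          rw [norm_smul, norm_smul, h.w1, h.u1, Real.norm_eq_abs, Real.norm_eq_abs]
          have : |inner ℝ w x| ≤ 2 * N := abs_le.2 ⟨h1, by linarith⟩
          linarith
  · rintro x ⟨⟨h1, h2⟩, h3, h4⟩ y ⟨⟨h1', h2'⟩, h3', h4'⟩ a c ha hc hac
    refine ⟨⟨?_, ?_⟩, ?_, ?_⟩
    · rw [inner_add_right, real_inner_smul_right, real_inner_smul_right]
      nlinarith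
    · rw [inner_add_right, real_inner_smul_right, real_inner_smul_right]
      nlinarith
    · rw [inner_add_right, real_inner_smul_right, real_inner_smul_right]
      rw [abs_le] at *
      constructor <;> nlinarith
    · have e : a • x + c • y - Q w u (a • x + c • y) = a • (x - Q w u x) + c • (y - Q w u y) := by
        rw [map_add, map_smul, map_smul]; module
      rw [e]
      calc ‖a • (x - Q w u x) + c • (y - Q w u y)‖ ≤ ‖a • (x - Q w u x)‖ + ‖c • (y - Q w u y)‖ :=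
            norm_add_le _ _
        _ ≤ a * N ^ 2 + c * N ^ 2 := by
          rw [norm_smul, norm_smul, Real.norm_eq_abs, Real.norm_eq_abs, abs_of_nonneg ha,
            abs_of_nonneg hc]
          gcongr
        _ = N ^ 2 := by rw [← add_mul, hac, one_mul]

variable {H : Submodule ℝ (Eu n)}

lemma refl_w (hw : w ∈ H) : H.reflection w = w := H.reflection_mem_subspace_eq_self hw

lemma refl_u (hu : u ∈ Hᗮ) : H.reflection u = -u :=
  H.reflection_mem_subspace_orthogonalComplement_eq_neg hu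

lemma Q_refl (hw : w ∈ H) (hu : u ∈ Hᗮ) (x : Eu n) :
    Q w u (H.reflection x) = H.reflection (Q w u x) := by
  rw [Q_apply, Q_apply, map_add, map_smul, map_smul, refl_w hw, refl_u hu]
  rw [← inner_refl, ← inner_refl, refl_w hw, refl_u hu, inner_neg_left]
  module

lemma inner_w_refl (hw : w ∈ H) (x : Eu n) : inner ℝ w (H.reflection x) = inner ℝ w x := by
  rw [← inner_refl, refl_w hw]

lemma inner_u_refl (hu : u ∈ Hᗮ) (x : Eu n) : inner ℝ u (H.reflection x) = -inner ℝ u x := by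
  rw [← inner_refl, refl_u hu, inner_neg_left]

lemma norm_sub_Q_refl (hw : w ∈ H) (hu : u ∈ Hᗮ) (x : Eu n) :
    ‖H.reflection x - Q w u (H.reflection x)‖ = ‖x - Q w u x‖ := by
  rw [Q_refl hw hu, ← map_sub, LinearIsometryEquiv.norm_map]

lemma TT_sym (hw : w ∈ H) (hu : u ∈ Hᗮ) (N : ℝ) : Sym H (TT w u N) := by
  rw [sym_iff]
  rintro x ⟨h1, h2, h3⟩
  refine ⟨?_, ?_, ?_⟩
  · rw [inner_w_refl hw]; exact h1
  · rw [inner_u_refl hu, abs_neg]; exact h2
  · rw [norm_sub_Q_refl hw hu]; exact h3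

lemma supp_TT_le (h : ON w u) {N : ℝ} (hN : 0 < N) (v : Eu n) (hs : 0 ≤ inner ℝ w v) :
    supp (TT w u N) v ≤ -(N * inner ℝ w v) + N * |inner ℝ u v| + N ^ 2 * ‖v - Q w u v‖ := by
  apply supp_le (TT_cls h hN True).ne
  rintro x ⟨⟨h1, h2⟩, h3, h4⟩
  rw [inner_split h]
  have e1 : inner ℝ w x * inner ℝ w v ≤ -N * inner ℝ w v := mul_le_mul_of_nonneg_right h2 hs
  have e2 : inner ℝ u x * inner ℝ u v ≤ N * |inner ℝ u v| := by
    calc inner ℝ u x * inner ℝ u v ≤ |inner ℝ u x * inner ℝ u v| := le_abs_self _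
      _ = |inner ℝ u x| * |inner ℝ u v| := abs_mul _ _
      _ ≤ N * |inner ℝ u v| := by gcongr
  have e3 : inner ℝ (x - Q w u x) (v - Q w u v) ≤ N ^ 2 * ‖v - Q w u v‖ := by
    calc inner ℝ (x - Q w u x) (v - Q w u v) ≤ ‖x - Q w u x‖ * ‖v - Q w u v‖ := real_inner_le_norm _ _
      _ ≤ N ^ 2 * ‖v - Q w u v‖ := by gcongr
  linarith

lemma le_supp_TT (h : ON w u) {N : ℝ} (hN : 0 < N) (v : Eu n) :
    -(N * inner ℝ w v) + N * |inner ℝ u v| + N ^ 2 * ‖v - Q w u v‖ ≤ supp (TT w u N) v := by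
  obtain ⟨c, hc1, hc2⟩ : ∃ c : ℝ, |c| ≤ 1 ∧ c * inner ℝ u v = |inner ℝ u v| := by
    rcases le_total 0 (inner ℝ u v) with h0 | h0
    · exact ⟨1, by simp, by rw [one_mul, abs_of_nonneg h0]⟩
    · exact ⟨-1, by simp, by rw [abs_of_nonpos h0]; ring⟩
  set z := v - Q w u v with hz
  have hQz : Q w u z = 0 := by rw [hz, map_sub, QQ h, sub_self]
  have hwz : inner ℝ w z = 0 := by rw [hz, inner_sub_right, inner_w_Q h, sub_self]
  have huz : inner ℝ u z = 0 := by rw [hz, inner_sub_right, inner_u_Q h, sub_self]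
  set x : Eu n := (-N) • w + (N * c) • u + (N ^ 2 * ‖z‖⁻¹) • z with hx
  have ew : inner ℝ w x = -N := by
    rw [hx, inner_add_right, inner_add_right, real_inner_smul_right, real_inner_smul_right,
      real_inner_smul_right, h.ww, h.wu, hwz]; ring
  have eu : inner ℝ u x = N * c := by
    rw [hx, inner_add_right, inner_add_right, real_inner_smul_right, real_inner_smul_right,
      real_inner_smul_right, h.uw, h.uu, huz]; ring
  have ez : x - Q w u x = (N ^ 2 * ‖z‖⁻¹) • z := by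
    rw [Q_apply, ew, eu, hx]; abel
  have hzn : ‖z‖⁻¹ * ‖z‖ ≤ 1 := by
    rcases eq_or_ne ‖z‖ 0 with h0 | h0
    · rw [h0]; simp
    · rw [inv_mul_cancel₀ h0]
  have hxT : x ∈ TT w u N := by
    refine ⟨?_, ?_, ?_⟩
    · rw [ew]; constructor <;> linarith
    · rw [eu, abs_mul, abs_of_pos hN]
      nlinarith
    · rw [ez, norm_smul, Real.norm_eq_abs, abs_of_nonneg (by positivity), mul_assoc]
      nlinarith [sq_nonneg N]
  have hle := le_supp (TT_cls h hN True).compact hxT v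
  rw [inner_split h, ew, eu, ez, ← hz, real_inner_smul_left, real_inner_self_eq_norm_sq,
    mul_assoc, hc2] at hle
  have e4 : N ^ 2 * ‖z‖⁻¹ * ‖z‖ ^ 2 = N ^ 2 * ‖z‖ := by
    rcases eq_or_ne ‖z‖ 0 with h0 | h0
    · rw [h0]; simp
    · field_simp
  rw [e4] at hle
  linarith

/-! ### the squeezing maps -/

/-- squeeze orthogonally to the plane -/
noncomputable def LL (w u : Eu n) (N : ℝ) : Eu n →L[ℝ] Eu n :=
  Q w u + N⁻¹ • (ContinuousLinearMap.id ℝ (Eu n) - Q w u)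

lemma LL_apply (N : ℝ) (v : Eu n) : LL w u N v = Q w u v + N⁻¹ • (v - Q w u v) := by
  simp [LL]

lemma Q_LL (h : ON w u) (N : ℝ) (v : Eu n) : Q w u (LL w u N v) = Q w u v := by
  rw [LL_apply, map_add, map_smul, map_sub, QQ h, sub_self, smul_zero, add_zero]

lemma w_LL (h : ON w u) (N : ℝ) (v : Eu n) : inner ℝ w (LL w u N v) = inner ℝ w v := by
  rw [← inner_w_Q h, Q_LL h, inner_w_Q h]

lemma u_LL (h : ON w u) (N : ℝ) (v : Eu n) : inner ℝ u (LL w u N v) = inner ℝ u v := by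
  rw [← inner_u_Q h, Q_LL h, inner_u_Q h]

lemma sub_LL (h : ON w u) (N : ℝ) (v : Eu n) :
    LL w u N v - Q w u (LL w u N v) = N⁻¹ • (v - Q w u v) := by
  rw [Q_LL h, LL_apply]; abel

lemma Q_le_LL (h : ON w u) (N : ℝ) (v : Eu n) : ‖Q w u v‖ ≤ ‖LL w u N v‖ := by
  have := Q_le h (LL w u N v)
  rwa [Q_LL h] at this

lemma LL_le (h : ON w u) {N : ℝ} (hN : 1 ≤ N) (v : Eu n) : ‖LL w u N v‖ ≤ ‖v‖ := by
  apply le_of_sq_le_sq _ (norm_nonneg _)
  rw [normsq_split h (LL w u N v), sub_LL h, Q_LL h, normsq_split h v, norm_smul, mul_pow]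
  have h1 : ‖N⁻¹‖ ^ 2 ≤ 1 := by
    rw [Real.norm_eq_abs, abs_of_nonneg (by positivity)]
    have : N⁻¹ ≤ 1 := inv_le_one_of_one_le₀ hN
    have h0 : 0 ≤ N⁻¹ := by positivity
    nlinarith
  nlinarith [sq_nonneg ‖v - Q w u v‖]

/-- the cone function -/
noncomputable def psi (w u : Eu n) (v : Eu n) : ℝ :=
  inner ℝ w v - |inner ℝ u v| - ‖v - Q w u v‖

lemma supp_TT_LL_le (h : ON w u) {N : ℝ} (hN : 0 < N) (v : Eu n) (hs : 0 ≤ inner ℝ w v) :
    supp (TT w u N) (LL w u N v) ≤ -(N * psi w u v) := by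
  have := supp_TT_le h hN (LL w u N v) (by rwa [w_LL h])
  rw [w_LL h, u_LL h, sub_LL h, norm_smul, Real.norm_eq_abs, abs_of_pos (inv_pos.2 hN)] at this
  refine this.trans (le_of_eq ?_)
  unfold psi
  field_simp
  ring

lemma le_supp_TT_LL (h : ON w u) {N : ℝ} (hN : 0 < N) (v : Eu n) :
    -(N * psi w u v) ≤ supp (TT w u N) (LL w u N v) := by
  have := le_supp_TT h hN (LL w u N v)
  rw [w_LL h, u_LL h, sub_LL h, norm_smul, Real.norm_eq_abs, abs_of_pos (inv_pos.2 hN)] at this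
  refine le_trans (le_of_eq ?_) this
  unfold psi
  field_simp
  ring

lemma LL_det (h : ON w u) {N : ℝ} (hN : 0 < N) :
    LinearMap.det (LL w u N : Eu n →ₗ[ℝ] Eu n) ≠ 0 := by
  intro h0
  have h1 := LinearMap.bot_lt_ker_of_det_eq_zero h0
  rw [bot_lt_iff_ne_bot, Submodule.ne_bot_iff] at h1
  obtain ⟨v, hv, hv0⟩ := h1
  rw [LinearMap.mem_ker] at hv
  have hv' : LL w u N v = 0 := hv
  have h2 : Q w u v = 0 := by rw [← Q_LL h N, hv', map_zero]
  have h3 := sub_LL h N v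
  rw [hv', map_zero, sub_self, h2, sub_zero] at h3
  have h4 := smul_eq_zero.1 h3.symm
  rcases h4 with h4 | h4
  · exact (inv_ne_zero hN.ne') h4
  · exact hv0 h4

/-- Change of variables (sign only). -/
lemma integral_LL_nonpos (h : ON w u) {N : ℝ} (hN : 0 < N) (F : Eu n → ℝ) (hF : Continuous F)
    (hi : ∫ v, F v ≤ 0) : ∫ v, F (LL w u N v) ≤ 0 := by
  have hm := MeasureTheory.Measure.map_linearMap_addHaar_eq_smul_addHaar
    (volume : Measure (Eu n)) (LL_det h hN)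
  have h1 : ∫ y, F y ∂(Measure.map (LL w u N) (volume : Measure (Eu n))) =
      ∫ x, F (LL w u N x) :=
    integral_map (LL w u N).continuous.aemeasurable hF.aestronglyMeasurable
  rw [← h1]
  have h2 : Measure.map (LL w u N) (volume : Measure (Eu n)) =
      ENNReal.ofReal |(LinearMap.det (LL w u N : Eu n →ₗ[ℝ] Eu n))⁻¹| • volume := hm
  rw [h2, integral_smul_measure]
  exact mul_nonpos_of_nonneg_of_nonpos ENNReal.toReal_nonneg hi

end Pool.Agent.X137.MW
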