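import Pool.Agent.X137.MW.Final

set_option autoImplicit false

/-!
# The Gaussian functional `V` is a multiple of the mean width
-/

namespace Pool.Agent.X137.MW

open MeasureTheory Set Filter Topology

variable {n : ℕ}

/-- The integral of the support function over the unit sphere. -/
noncomputable def sphInt (K : Set (Eu n)) : ℝ :=
  ∫ v : Metric.sphere (0 : Eu n) 1, supp K (v : Eu n) ∂((volume : Measure (Eu n)).toSphere)

/-- the radial constant -/
noncomputable def c0 (n : ℕ) : ℝ :=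
  ∫ r : Ioi (0:ℝ), (r : ℝ) * Real.exp (-(r : ℝ) ^ 2) ∂(Measure.volumeIoiPow (Module.finrank ℝ (Eu n) - 1))

lemma V_eq_sphInt (hn : 1 ≤ n) {K : Set (Eu n)} (hK : IsCompact K) (hne : K.Nonempty) :
    V K = sphInt K * c0 n := by
  have : Nonempty (Fin n) := ⟨⟨0, hn⟩⟩
  have hnt : Nontrivial (Eu n) := inferInstance
  let f : Eu n → ℝ := fun v => supp K v * Real.exp (-‖v‖ ^ 2)
  let g : Metric.sphere (0 : Eu n) 1 × Ioi (0:ℝ) → ℝ := fun z =>
    supp K (z.1 : Eu n) * ((z.2 : ℝ) * Real.exp (-(z.2 : ℝ) ^ 2))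
  have h1 : V K = ∫ v in ({0}ᶜ : Set (Eu n)), f v := by
    unfold V
    rw [restrict_compl_singleton]
  have h2 : ∫ v in ({0}ᶜ : Set (Eu n)), f v =
      ∫ x : ({0}ᶜ : Set (Eu n)), f x ∂((volume : Measure (Eu n)).comap Subtype.val) :=
    (integral_subtype_comap (measurableSet_singleton _).compl f).symm
  have h3 := (volume : Measure (Eu n)).measurePreserving_homeomorphUnitSphereProd.integral_comp
    (Homeomorph.measurableEmbedding _) g
  have h4 : ∀ x : ({0}ᶜ : Set (Eu n)), g (homeomorphUnitSphereProd (Eu n) x) = f x := by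
    intro x
    have hx : (x : Eu n) ≠ 0 := x.2
    have hxn : 0 < ‖(x : Eu n)‖ := norm_pos_iff.2 hx
    simp only [g, f, homeomorphUnitSphereProd_apply_snd_coe,
      homeomorphUnitSphereProd_apply_fst_coe]
    have e : (x : Eu n) = ‖(x : Eu n)‖ • (‖(x : Eu n)‖⁻¹ • (x : Eu n)) := by
      rw [smul_smul, mul_inv_cancel₀ hxn.ne', one_smul]
    conv_rhs => rw [e, supp_smul hK hne (norm_nonneg _)]
    rw [← e]
    ring
  simp only [h4] at h3
  rw [h1, h2, h3]
  have h5 := integral_prod_mul (μ := (volume : Measure (Eu n)).toSphere)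
    (ν := Measure.volumeIoiPow (Module.finrank ℝ (Eu n) - 1))
    (fun z : Metric.sphere (0 : Eu n) 1 => supp K (z : Eu n))
    (fun r : Ioi (0:ℝ) => (r : ℝ) * Real.exp (-(r : ℝ) ^ 2))
  exact h5

lemma c0_pos (hn : 1 ≤ n) : 0 < c0 n := by
  have h0 : 0 ≤ c0 n := by
    apply integral_nonneg
    intro r
    have : 0 < (r : ℝ) := r.2
    positivity
  rcases h0.eq_or_lt with h | h
  · exfalso
    have hi : (interior (Metric.closedBall (0 : Eu n) 1)).Nonempty := by
      refine ⟨0, ?_⟩
      rw [interior_closedBall _ one_ne_zero]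
      simp
    have h1 := V_pos_of_interior hn (isCompact_closedBall (0 : Eu n) 1) hi
    rw [V_eq_sphInt hn (isCompact_closedBall _ _) ⟨0, by simp⟩, ← h, mul_zero] at h1
    exact lt_irrefl _ h1
  · exact h

/-- Preservation of the mean width is preservation of `V`. -/
lemma V_eq_iff (hn : 1 ≤ n) {K L : Set (Eu n)} (hK : IsCompact K) (hKn : K.Nonempty)
    (hL : IsCompact L) (hLn : L.Nonempty) : V K = V L ↔ sphInt K = sphInt L := by
  rw [V_eq_sphInt hn hK hKn, V_eq_sphInt hn hL hLn]
  exact mul_left_inj' (c0_pos hn).ne'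

end Pool.Agent.X137.MW
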