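import Pool.Agent.X137.MW.Base

set_option autoImplicit false

/-!
# Classes of sets, reflections, hulls, and the auxiliary sets `TT`
-/

namespace Pool.Agent.X137.MW

open MeasureTheory Set Filter Topology

variable {n : ℕ}

/-- The class of nonempty compact convex sets, with nonempty interior if `b` holds. -/
def Cls (b : Prop) (K : Set (Eu n)) : Prop :=
  IsCompact K ∧ Convex ℝ K ∧ K.Nonempty ∧ (b → (interior K).Nonempty)

/-- `H`-symmetric sets. -/
def Sym (H : Submodule ℝ (Eu n)) (K : Set (Eu n)) : Prop := H.reflection '' K = K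

/-- The symmetrizations in question. -/
structure Good (H : Submodule ℝ (Eu n)) (b : Prop) (D : Set (Eu n) → Set (Eu n)) : Prop where
  cls : ∀ K, Cls b K → Cls b (D K)
  sym : ∀ K, Cls b K → Sym H (D K)
  mono : ∀ K L, Cls b K → Cls b L → K ⊆ L → D K ⊆ D L
  vol : ∀ K, Cls b K → V (D K) = V K
  inv : ∀ K, Cls b K → Sym H K → D K = K

lemma sym_iff (H : Submodule ℝ (Eu n)) (K : Set (Eu n)) :
    Sym H K ↔ ∀ x ∈ K, H.reflection x ∈ K := by
  constructor
  · intro h x hx
    rw [← h]
    exact ⟨x, hx, rfl⟩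
  · intro h
    apply Subset.antisymm
    · rintro _ ⟨x, hx, rfl⟩
      exact h x hx
    · intro x hx
      exact ⟨H.reflection x, h x hx, H.reflection_reflection x⟩

lemma inner_refl (H : Submodule ℝ (Eu n)) (x v : Eu n) :
    inner ℝ (H.reflection x) v = inner ℝ x (H.reflection v) := by
  have h := LinearIsometryEquiv.inner_map_map H.reflection x (H.reflection v)
  rw [H.reflection_reflection] at h
  exact h

lemma supp_refl {H : Submodule ℝ (Eu n)} {K : Set (Eu n)} (h : Sym H K) (v : Eu n) :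
    supp K (H.reflection v) = supp K v := by
  unfold supp
  conv_rhs => rw [← h]
  rw [image_image]
  simp only [inner_refl]

lemma supp_mono {K L : Set (Eu n)} (hK : K.Nonempty) (hL : IsCompact L) (h : K ⊆ L) (v : Eu n) :
    supp K v ≤ supp L v :=
  supp_le hK fun _ hy => le_supp hL (h hy) v

lemma Cls.compact {b : Prop} {K : Set (Eu n)} (h : Cls b K) : IsCompact K := h.1
lemma Cls.convex {b : Prop} {K : Set (Eu n)} (h : Cls b K) : Convex ℝ K := h.2.1
lemma Cls.ne {b : Prop} {K : Set (Eu n)} (h : Cls b K) : K.Nonempty := h.2.2.1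

/-- support functions are bounded by a multiple of the norm -/
lemma supp_abs_le' {K : Set (Eu n)} (hK : IsCompact K) (hne : K.Nonempty) :
    ∃ R : ℝ, 0 ≤ R ∧ ∀ v : Eu n, |supp K v| ≤ R * ‖v‖ := by
  obtain ⟨R, hR⟩ := supp_abs_le hK hne
  refine ⟨|R|, abs_nonneg _, fun v => (hR v).trans ?_⟩
  exact mul_le_mul_of_nonneg_right (le_abs_self R) (norm_nonneg v)

/-- supp is positively homogeneous -/
lemma supp_smul {K : Set (Eu n)} (hK : IsCompact K) (hne : K.Nonempty) {r : ℝ} (hr : 0 ≤ r)
    (v : Eu n) : supp K (r • v) = r * supp K v := by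
  apply le_antisymm
  · apply supp_le hne
    intro y hy
    rw [real_inner_smul_right]
    exact mul_le_mul_of_nonneg_left (le_supp hK hy v) hr
  · obtain ⟨y, hy, h⟩ := supp_attained hK hne v
    rw [← h, ← real_inner_smul_right]
    exact le_supp hK hy _

/-- the convex hull of the union -/
def J (A T : Set (Eu n)) : Set (Eu n) := convexHull ℝ (A ∪ T)

lemma J_eq {A T : Set (Eu n)} (hA : Convex ℝ A) (hT : Convex ℝ T) (hAn : A.Nonempty)
    (hTn : T.Nonempty) : J A T =
      (fun p : ℝ × Eu n × Eu n => (1 - p.1) • p.2.1 + p.1 • p.2.2) '' (Icc (0:ℝ) 1 ×ˢ A ×ˢ T) := by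
  unfold J
  rw [hA.convexHull_union hT hAn hTn]
  ext x
  rw [mem_convexJoin]
  constructor
  · rintro ⟨a, ha, c, hc, hx⟩
    rw [segment_eq_image] at hx
    obtain ⟨t, ht, rfl⟩ := hx
    exact ⟨(t, a, c), ⟨ht, ha, hc⟩, rfl⟩
  · rintro ⟨⟨t, a, c⟩, ⟨ht, ha, hc⟩, rfl⟩
    refine ⟨a, ha, c, hc, ?_⟩
    rw [segment_eq_image]
    exact ⟨t, ht, rfl⟩

lemma J_cls {b : Prop} {A T : Set (Eu n)} (hA : Cls b A) (hT : Cls b T) : Cls b (J A T) := by
  refine ⟨?_, convex_convexHull ℝ _, ?_, ?_⟩
  · rw [J_eq hA.convex hT.convex hA.ne hT.ne]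
    exact (isCompact_Icc.prod (hA.compact.prod hT.compact)).image (by fun_prop)
  · exact hA.ne.mono (subset_union_left.trans (subset_convexHull ℝ _))
  · intro hb
    exact (hA.2.2.2 hb).mono
      (interior_mono (subset_union_left.trans (subset_convexHull ℝ _)))

lemma supp_J {b : Prop} {A T : Set (Eu n)} (hA : Cls b A) (hT : Cls b T) (v : Eu n) :
    supp (J A T) v ≤ max (supp A v) (supp T v) := by
  apply supp_le (J_cls hA hT).ne
  intro x hx
  rw [J_eq hA.convex hT.convex hA.ne hT.ne] at hx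
  obtain ⟨⟨t, a, c⟩, ⟨⟨ht0, ht1⟩, ha, hc⟩, rfl⟩ := hx
  simp only
  rw [inner_add_left, real_inner_smul_left, real_inner_smul_left]
  have h1 := (le_supp hA.compact ha v).trans (le_max_left _ (supp T v))
  have h2 := (le_supp hT.compact hc v).trans (le_max_right (supp A v) _)
  simp only at ht0 ht1
  nlinarith

/-- The basic inequality. -/
lemma basic_ineq {H : Submodule ℝ (Eu n)} {b : Prop} {D : Set (Eu n) → Set (Eu n)}
    (hD : Good H b D) {A T : Set (Eu n)} (hA : Cls b A) (hT : Cls b T) (hTs : Sym H T) :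
    ∫ v : Eu n, (max (supp (D A) v) (supp T v) - max (supp A v) (supp T v)) *
      Real.exp (-‖v‖ ^ 2) ≤ 0 := by
  have hX := hD.cls A hA
  have hJ := J_cls hA hT
  have hDJ := hD.cls _ hJ
  have hAJ : A ⊆ J A T := subset_union_left.trans (subset_convexHull ℝ _)
  have hTJ : T ⊆ J A T := subset_union_right.trans (subset_convexHull ℝ _)
  have h1 : D A ⊆ D (J A T) := hD.mono _ _ hA hJ hAJ
  have h2 : T ⊆ D (J A T) := by
    have := hD.mono _ _ hT hJ hTJ
    rwa [hD.inv T hT hTs] at this
  have i1 : Integrable (fun v : Eu n => max (supp (D A) v) (supp T v) * Real.exp (-‖v‖ ^ 2)) := by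
    have e : (fun v : Eu n => max (supp (D A) v) (supp T v) * Real.exp (-‖v‖ ^ 2)) =
        (fun v : Eu n => supp (D A) v * Real.exp (-‖v‖ ^ 2)) ⊔
          (fun v : Eu n => supp T v * Real.exp (-‖v‖ ^ 2)) := by
      ext v
      simp only [Pi.sup_apply]
      exact max_mul_of_nonneg _ _ (Real.exp_pos _).le
    rw [e]
    exact (supp_integrable hX.compact hX.ne).sup (supp_integrable hT.compact hT.ne)
  have i2 : Integrable (fun v : Eu n => max (supp A v) (supp T v) * Real.exp (-‖v‖ ^ 2)) := by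
    have e : (fun v : Eu n => max (supp A v) (supp T v) * Real.exp (-‖v‖ ^ 2)) =
        (fun v : Eu n => supp A v * Real.exp (-‖v‖ ^ 2)) ⊔
          (fun v : Eu n => supp T v * Real.exp (-‖v‖ ^ 2)) := by
      ext v
      simp only [Pi.sup_apply]
      exact max_mul_of_nonneg _ _ (Real.exp_pos _).le
    rw [e]
    exact (supp_integrable hA.compact hA.ne).sup (supp_integrable hT.compact hT.ne)
  have e1 : ∫ v : Eu n, max (supp (D A) v) (supp T v) * Real.exp (-‖v‖ ^ 2) ≤ V (D (J A T)) := by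
    unfold V
    apply integral_mono i1 (supp_integrable hDJ.compact hDJ.ne)
    intro v
    apply mul_le_mul_of_nonneg_right _ (Real.exp_pos _).le
    exact max_le (supp_mono hX.ne hDJ.compact h1 v) (supp_mono hT.ne hDJ.compact h2 v)
  have e2 : V (J A T) ≤ ∫ v : Eu n, max (supp A v) (supp T v) * Real.exp (-‖v‖ ^ 2) := by
    unfold V
    apply integral_mono (supp_integrable hJ.compact hJ.ne) i2
    intro v
    exact mul_le_mul_of_nonneg_right (supp_J hA hT v) (Real.exp_pos _).le
  rw [hD.vol _ hJ] at e1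
  have : ∫ v : Eu n, (max (supp (D A) v) (supp T v) - max (supp A v) (supp T v)) *
      Real.exp (-‖v‖ ^ 2) = (∫ v : Eu n, max (supp (D A) v) (supp T v) * Real.exp (-‖v‖ ^ 2)) -
        ∫ v : Eu n, max (supp A v) (supp T v) * Real.exp (-‖v‖ ^ 2) := by
    rw [← integral_sub i1 i2]
    congr 1
    ext v
    ring
  rw [this]
  linarith

end Pool.Agent.X137.MW
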